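import Pool.Agent.W82_c2305b.Sel4
import Pool.Agent.W82_c2305b.WalkA
import Pool.Agent.W_c2305b_h73.Move
import Pool.Agent.W_c2305b_h72.NearSym

/-!
# MP_c2305b_co, class Gap + Sym: definitions (proofs row 552)

Tiles are regular if they are nearly centrally symmetric hexagons and if the vertex which is
extreme in a direction close to the first axis of their frame can be passed (third edge).  The
field of the flux argument is built from two vectors `m i`, `g i` attached to the tiles.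
-/

namespace C2305bG

open Set MeasureTheory C2305b.TL
open C2305bB (Fr mis Fits al Blk goodSides Meets)
open C2305b.Rig (Conv6 ar6 InBody Am Pos Sym6)
open C2305bH52 (needle)
open W82 (Vb Tv cap S)

noncomputable section

/-- First local coordinate of the vector `v` in the frame `F`. -/
def lx (L : ℝ) (F : Fr) (v : V) : ℝ := F.c * v 0 + F.S * v 1 / L

/-- Second local coordinate of the vector `v` in the frame `F`. -/
def ly (L : ℝ) (F : Fr) (v : V) : ℝ := F.c * v 1 - L * F.S * v 0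

/-- Regular tile: area at least `a`, in the interior, with six nearly symmetric edges; in every
direction close to the first axis of the frame there is a point of the region at depth `c0` below
the tile. -/
structure RegTile (L ε c0 a : ℝ) {J : Type} (T : Tiling J) (F : J → Fr) (i : J) : Prop where
  area : a ≤ (volume (T.P i)).toReal
  inn : ∀ v w, T.E i v w → ∃ j, T.E j w v
  sub : T.P i ⊆ interior T.R
  ext : ∀ v ∈ T.W, v ∈ T.P i → v ∈ (T.P i).extremePoints ℝ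
  sym : ∃ q : Fin 6 → V, Function.Injective q ∧
    (∀ p : V × V, p ∈ T.edges i ↔ ∃ k, p = (q k, q (k + 1))) ∧
    ∀ k, |lx L (F i) ((q (k + 1) - q k) + (q (k + 4) - q (k + 3)))| ≤ ε ∧
      |ly L (F i) ((q (k + 1) - q k) + (q (k + 4) - q (k + 3)))| ≤ ε
  low : ∀ α β : ℝ, 1 / 2 ≤ |α| → |α| ≤ 1 → |β| ≤ 1 → ∃ w ∈ T.R, ∀ x ∈ T.P i,
    α * lx L (F i) (w - x) + β * ly L (F i) (w - x) ≤ -c0

/-- Outside `Bad` the tiles of a pair are regular and their mismatch is bounded. -/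
def Lvl (L μ ε c0 a : ℝ) {J : Type} (T : Tiling J) (F : J → Fr) (Bad : Finset (J × J)) : Prop :=
  ∀ i j v w, T.Tw i j v w → (i, j) ∉ Bad →
    mis L (F i) (F j) ≤ μ ∧ RegTile L ε c0 a T F i ∧ RegTile L ε c0 a T F j

/-- The vectors of the field, for tiles which are not steep. -/
structure Field (L R m0 ω δ κ c1 : ℝ) {J : Type} (T : Tiling J) (F : J → Fr)
    (Bad : Finset (J × J)) (m g : J → V) : Prop where
  bd : ∀ i j v w, T.Tw i j v w → (i, j) ∉ Bad → 1 / 2 ≤ (F i).c →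
    m0 ≤ lx L (F i) (m i) ∧ |lx L (F i) (m i)| ≤ R ∧ |ly L (F i) (m i)| ≤ R ∧
      |lx L (F i) (g i)| ≤ R ∧ |ly L (F i) (g i)| ≤ R
  rel : ∀ i j v w, T.Tw i j v w → (i, j) ∉ Bad → 1 / 2 ≤ (F i).c → 1 / 2 ≤ (F j).c →
    |lx L (F i) (w - v)| ≤ ω →
    |lx L (F i) (g i - g j)| ≤ δ ∧ |ly L (F i) (g i - g j)| ≤ δ ∧
      (|lx L (F i) (g i)| ≤ 3 * c1 → |cr (m i) (m j)| ≤ κ)

/-- The four cells around a nearly vertical edge (exact form: `C2305bH68.Hang`). Cell `0` is on one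
side of the edge `q 0 0, q 0 1`, cell `1` on the other, cell `2` is the third cell at `q 0 0`, cell
`3` the third cell at `q 1 1`. -/
def RegAt (K0 : Set V) (T6 ν ε a b η ω c1 κ : ℝ) : Prop :=
  ∀ (t : Fin 4 → Bool) (c s : Fin 4 → ℝ) (o : Fin 4 → V) (q : Fin 4 → Fin 6 → V),
    (∀ i, c i ^ 2 + ν * s i ^ 2 = 1) → (∀ i, Conv6 (q i)) →
    (∀ i k, InBody K0 a b (t i) ((1 + ε)⁻¹ • q i k)) → (∀ i, T6 - η ≤ ar6 (q i)) →
    ∀ X : Fin 4 → Fin 6 → V, (∀ i k, X i k = Pos ν 1 0 (t i) (c i) (s i) (o i) (q i k)) →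
    X 0 0 = X 1 0 → X 0 0 = X 2 0 → X 0 1 = X 1 5 → X 0 5 = X 2 1 → X 1 1 = X 2 5 →
    X 1 1 = X 3 0 → X 1 2 = X 3 5 → X 2 4 = X 3 1 →
    |(q 0 1 - q 0 0) 0| ≤ ω → |(q 2 2 - q 2 1) 0| ≤ 3 * c1 →
    |cr (X 0 0 - X 0 4) (X 1 2 - X 1 0)| ≤ κ

/-- The interface of the window argument for the class Gap + Sym. -/
def PartBG (R τ G a μ c0 m0 : ℝ) : Prop :=
  ∃ κ : ℝ, 0 < κ ∧ κ ≤ 1 ∧ ∀ c1 : ℝ, 0 < c1 → c1 ≤ 1 → ∀ ω : ℝ, 0 < ω → ∃ ε : ℝ, 0 < ε ∧
    ∀ C1 : ℝ, 0 ≤ C1 → ∀ L1 : ℝ, ∃ B : ℝ,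
    ∀ (L : ℝ) (hL : 1 ≤ L) (ι : Type) [Fintype ι] (D : Set V) (P : ι → Set V)
      (h : W82.Tiling D P) (hi : (interior (convexHull ℝ (Vb D P))).Nonempty) (F : ι → Fr)
      (o : ι → V) (Lam : ℝ),
      (∀ i, P i ⊆ needle L (F i) (o i) (R / 2)) →
      (∀ i, (volume (P i)).toReal ≤ G) →
      0 ≤ Lam →
      Lam + τ * (Vb D P).ncard + 6 * τ ≤
        ∑ p ∈ h.sides hi, (volume (cap D p.1 p.2)).toReal →
      τ * (Tv D P).ncard ≤ Lam →
      (L1 ≤ L → ∃ Bad : Finset ({i : ι // (interior (convexHull ℝ (S P i))).Nonempty} ×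
          {i : ι // (interior (convexHull ℝ (S P i))).Nonempty}),
        (Bad.card : ℝ) ≤ C1 * (Lam + (Vb D P).ncard) ∧
        Lvl L μ ε c0 a (h.toTL hi) (fun i => F i) Bad ∧
        ∀ (z : V) (g1 g2 : ℝ) (hg : g1 ^ 2 + g2 ^ 2 = 1),
          ∃ m g : {i : ι // (interior (convexHull ℝ (S P i))).Nonempty} → V,
            Field L R m0 ω (κ * c1 ^ 2) κ c1
              (C2305bB.mvT (h.toTL hi) (by linarith : (0 : ℝ) < L).ne' hg z)
              (fun i => (F i).rot g1 g2 hg) Bad m g) →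
      ((Vb D P).ncard : ℝ) ≤ B

end

end C2305bG
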