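import Pool.Agent.W_c2305b_h86.Defs
import Pool.Agent.W_c2305b_h72.SignedFlux
import Pool.Agent.W_c2305b_h35.Jump

/-!
# MP_c2305b_co, class Gap + Sym: the field
-/

namespace C2305bG

open Set MeasureTheory C2305b.TL
open C2305bB (Fr mis Fits al Meets)

noncomputable section

/-- The blending weight. -/
def thf (c1 x : ℝ) : ℝ := min 1 (max 0 (|x| / c1 - 1))

/-- The field value of a tile with the vectors `m`, `g`. -/
def uf (c1 : ℝ) (m g : V) : ℝ :=
  (1 - thf c1 (g 0)) * (m 1 / m 0) + thf c1 (g 0) * (g 1 / g 0)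

/-- The field vectors are bounded in the frame `F`. -/
def MG (L R m0 : ℝ) (F : Fr) (m g : V) : Prop :=
  m0 ≤ lx L F m ∧ |lx L F m| ≤ R ∧ |ly L F m| ≤ R ∧ |lx L F g| ≤ R ∧ |ly L F g| ≤ R

end

end C2305bG
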