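import Pool.Agent.W_c2305b_h86.Label

/-!
# MP_c2305b_co, class Gap + Sym: the four cells around an edge
-/

namespace C2305bG

open Set Module MeasureTheory
open C2305b.TL (cr)
open C2305b.Rig (Conv6 ar6)
open W82 (V Perfect GoodV Vb Fv Tv S kv ux uy ux_sub uy_sub ux_add uy_add cr_frame ux_change
  uy_change rel_bounds)

variable {ι : Type*} {D : Set V} {P : ι → Set V}

/-- The three darts at a good vertex. -/
def Cor [Finite ι] (h : W82.Tiling D P) (hi : (interior (convexHull ℝ (Vb D P))).Nonempty)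
    (loss : ι → ℝ) (η : ℝ) : Prop :=
  ∀ v, GoodV D P loss η v → ∀ l : {i : ι // (interior (convexHull ℝ (S P i))).Nonempty},
    v ∈ P l → ∃ (j k : {i : ι // (interior (convexHull ℝ (S P i))).Nonempty}) (u w z : V),
      (h.toTL hi).E l u v ∧ (h.toTL hi).E l v w ∧ (h.toTL hi).E j w v ∧ (h.toTL hi).E j v z ∧
      (h.toTL hi).E k z v ∧ (h.toTL hi).E k v u ∧
      Perfect D P loss η l ∧ Perfect D P loss η j ∧ Perfect D P loss η k

/-- The corners of the four cells around the edge `v w` of the tiles `A`, `B`. -/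
structure Four [Finite ι] (h : W82.Tiling D P)
    (hi : (interior (convexHull ℝ (Vb D P))).Nonempty) (loss : ι → ℝ) (η : ℝ)
    (A B C E : {i : ι // (interior (convexHull ℝ (S P i))).Nonempty})
    (qA qB qC qD : Fin 6 → V) (v w : V) : Prop where
  pA : Perfect D P loss η A
  pB : Perfect D P loss η B
  pC : Perfect D P loss η C
  pD : Perfect D P loss η E
  lA : ∀ k, (h.toTL hi).E A (qA k) (qA (k + 1))
  lB : ∀ k, (h.toTL hi).E B (qB k) (qB (k + 1))
  lC : ∀ k, (h.toTL hi).E C (qC k) (qC (k + 1))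
  lD : ∀ k, (h.toTL hi).E E (qD k) (qD (k + 1))
  a0 : qA 0 = v
  a1 : qA 1 = w
  b0 : qB 0 = v
  b5 : qB 5 = w
  c0 : qC 0 = v
  c1 : qC 1 = qA 5
  c5 : qC 5 = qB 1
  d0 : qD 0 = qB 1
  d5 : qD 5 = qB 2
  d1 : qD 1 = qC 4

/-- **The four cells around an edge.** -/
theorem exists_four [Finite ι] (h : W82.Tiling D P)
    (hi : (interior (convexHull ℝ (Vb D P))).Nonempty) {loss : ι → ℝ} {η : ℝ}
    (hcor : Cor h hi loss η)
    {A B : {i : ι // (interior (convexHull ℝ (S P i))).Nonempty}} {v w : V}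
    (hA : (h.toTL hi).E A v w) (hB : (h.toTL hi).E B w v)
    (hgA : ∀ x ∈ S P (A : ι), GoodV D P loss η x) (hgB : ∀ x ∈ S P (B : ι), GoodV D P loss η x) :
    ∃ C E qA qB qC qD, Four h hi loss η A B C E qA qB qC qD v w := by
  set T := h.toTL hi with hT
  have memP : ∀ (i : {i : ι // (interior (convexHull ℝ (S P i))).Nonempty}) (x y : V),
      T.E i x y → x ∈ P i ∧ y ∈ P i := fun i x y hxy =>
    ⟨h.hull_sub i hxy.1.2, h.hull_sub i hxy.2.1.2⟩
  have memM : ∀ (i : {i : ι // (interior (convexHull ℝ (S P i))).Nonempty}) (x y : V),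
      T.E i x y → x ∈ h.M ∧ y ∈ h.M := fun i x y hxy => ⟨hxy.1.1, hxy.2.1.1⟩
  have hvA := (memP _ _ _ hA).1
  have hvB := (memP _ _ _ hB).2
  -- the vertex `v` is good
  have perfA : GoodV D P loss η v := by
    -- `A` is a tile with `v` among its corners
    obtain ⟨x, hx⟩ : ∃ x, x ∈ S P (A : ι) := by
      by_contra hcon
      push Not at hcon
      have : S P (A : ι) = ∅ := Set.eq_empty_iff_forall_notMem.mpr hcon
      have h1 := A.2
      rw [this, convexHull_empty, interior_empty] at h1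
      exact Set.not_nonempty_empty h1
    have h2 := (hgA x hx).2.2 A hx.1.1
    exact hgA v (h2.only v hvA (h.mem_M.mp hA.1.1))
  obtain ⟨j, C, u, w', z, e1, e2, e3, e4, e5, e6, pA, pB, pC⟩ := hcor v perfA A hvA
  have hw : w' = w := T.next_unique A hA e2
  subst hw
  have hjB : j = B := T.edge_unique e3 hB
  subst hjB
  -- labels
  have lab : ∀ (i : {i : ι // (interior (convexHull ℝ (S P i))).Nonempty}) (x y : V),
      Perfect D P loss η i → T.E i x y → ∃ q : Fin 6 → V, q 0 = x ∧ q 1 = y ∧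
        ∀ k, T.E i (q k) (q (k + 1)) := by
    intro i x y hp hxy
    have hxS : x ∈ S P (i : ι) := hp.only x (memP _ _ _ hxy).1 (h.mem_M.mp hxy.1.1)
    obtain ⟨q, q0, hq, -⟩ := label h hi hp hxS
    refine ⟨q, q0, ?_, hq⟩
    have h1 := hq 0
    rw [q0] at h1
    exact T.next_unique i hxy h1
  obtain ⟨qA, qA0, qA1, hqA⟩ := lab A _ _ pA hA
  obtain ⟨qB, qB0, qB1, hqB⟩ := lab j _ _ pB e4
  obtain ⟨qC, qC0, qC1, hqC⟩ := lab C _ _ pC e6
  have qA5 : qA 5 = u := by
    have h1 := hqA 5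
    have e : (5 : Fin 6) + 1 = 0 := rfl
    rw [e, qA0] at h1
    exact T.prev_unique A e1 h1
  have qB5 : qB 5 = w' := by
    have h1 := hqB 5
    have e : (5 : Fin 6) + 1 = 0 := rfl
    rw [e, qB0] at h1
    exact T.prev_unique j e3 h1
  have qC5 : qC 5 = z := by
    have h1 := hqC 5
    have e : (5 : Fin 6) + 1 = 0 := rfl
    rw [e, qC0] at h1
    exact T.prev_unique C e5 h1
  -- the second vertex
  have hzB : z ∈ P j := (memP _ _ _ e4).2
  have hzS : z ∈ S P (j : ι) := pB.only z hzB (h.mem_M.mp e4.2.1.1)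
  obtain ⟨E, k', u2, w2, z2, f1, f2, f3, f4, f5, f6, -, pD, -⟩ := hcor z (hgB z hzS) j hzB
  have hu2 : u2 = v := T.prev_unique j e4 f1
  subst hu2
  have hw2 : w2 = qB 2 := by
    have h1 := hqB 1
    have e : (1 : Fin 6) + 1 = 2 := rfl
    rw [e, qB1] at h1
    exact T.next_unique j h1 f2
  have hk' : k' = C := T.edge_unique f6 e5
  subst hk'
  have hz2 : z2 = qC 4 := by
    have h1 := hqC 4
    have e : (4 : Fin 6) + 1 = 5 := rfl
    rw [e, qC5] at h1
    exact T.prev_unique k' h1 f5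
  obtain ⟨qD, qD0, qD1, hqD⟩ := lab E _ _ pD f4
  have qD5 : qD 5 = qB 2 := by
    have h1 := hqD 5
    have e : (5 : Fin 6) + 1 = 0 := rfl
    rw [e, qD0] at h1
    rw [← hw2]
    exact T.prev_unique E f3 h1
  exact ⟨k', E, qA, qB, qC, qD, ⟨pA, pB, pC, pD, hqA, hqB, hqC, hqD, qA0, qA1, qB0, qB5, qC0,
    by rw [qC1, qA5], by rw [qC5, qB1], by rw [qD0, qB1], qD5, by rw [qD1, hz2]⟩⟩

end C2305bG
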