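import Pool.Agent.W_c2305b_h19.PartBG
import Pool.Agent.W_c2305b_h35.JumpG
import Pool.Agent.W82_c2305b.CoreG
import Pool.Agent.W_c2305b_h52.C1d
import Pool.Agent.W_c2305b_h73.Final

/-!
# MP_c2305b_co, class Gap + Sym: the core statement and the threshold
-/

open MeasureTheory Set Module
open scoped Pointwise

namespace C2305bG

open C2305b.Rig (LeMax StrictMax Sym6)

/-- The window argument for the class Gap + Sym. -/
theorem partBG_all {R τ G a μ c0 m0 : ℝ} (hR : 1 ≤ R) (hτ : 0 < τ) (hG : 0 < G) (ha : 0 < a)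
    (hμ : 0 < μ) (hc0 : 0 < c0) (hc01 : c0 ≤ 1) (hm0 : 0 < m0) (hm01 : m0 ≤ 1) :
    PartBG R τ G a μ c0 m0 := by
  refine partBG_of_jump hR hτ hG ha hμ.le hc0 hc01 fun κ3 hκ3 => ?_
  exact jump_leG R μ c0 m0 a hR hμ.le hc0 hc01 hm0 hm01 ha κ3 hκ3

/-- **The core statement for the class Gap + Sym.** -/
theorem core_of_gapSym {K0 : Set C2305b.Pl} {T6 τ g : ℝ} (hconv : Convex ℝ K0)
    (hcomp : IsCompact K0) (hsym : ∀ v ∈ K0, -v ∈ K0) (hT60 : 0 < T6)
    (hT6 : ENNReal.ofReal T6 ≤ C2305b.t6 K0) (hG : W82.Gap K0 T6 τ g)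
    (hle : LeMax K0 T6) (hs : Sym6 K0 T6) : C2305b.Core K0 :=
  W82.core_of_partBG hconv hcomp hsym hT60 hT6 hG hle (C2305bH52.C1.strictMax_of_gap hG) hs
    fun _ _ _ _ _ _ _ h1 h2 h3 h4 h5 h6 h7 h8 h9 => partBG_all h1 h2 h3 h4 h5 h6 h7 h8 h9

/-- The same with the maximal area of the inscribed hexagons. -/
theorem core_gapSym {K0 : Set C2305b.Pl} (hsym : ∀ v ∈ K0, -v ∈ K0) (hK : IsCompact K0)
    (hconv : Convex ℝ K0) (hint : (interior K0).Nonempty)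
    (hG : ∃ τ g, W82.Gap K0 (C2305bH52.Dow.sm (gauge K0) 6) τ g)
    (hs : Sym6 K0 (C2305bH52.Dow.sm (gauge K0) 6))
    (hle : LeMax K0 (C2305bH52.Dow.sm (gauge K0) 6)) : C2305b.Core K0 := by
  obtain ⟨τ, g, hG⟩ := hG
  have h1 := C2305bH52.Dow.t6_eq hsym hK hconv hint
  have h2 : 0 < C2305bH52.Dow.sm (gauge K0) 6 := by
    have := C2305b.t6_pos hint
    rw [h1] at this
    exact ENNReal.ofReal_pos.1 this
  exact core_of_gapSym hconv hK hsym h2 h1.ge hG hle hs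

/-- The natural class: `t5 + t7 < 2 t6`, and every inscribed hexagon of maximal area is centrally
symmetric. -/
theorem core_nat {K0 : Set C2305b.Pl} (hsym : ∀ v ∈ K0, -v ∈ K0) (hK : IsCompact K0)
    (hconv : Convex ℝ K0) (hint : (interior K0).Nonempty)
    (h : C2305bH52.Dow.tm 5 K0 + C2305bH52.Dow.tm 7 K0 < 2 * C2305bH52.Dow.tm 6 K0)
    (hn : ∀ p : Fin 6 → C2305b.Pl, (∀ k, p k ∈ K0) →
      volume (convexHull ℝ (range p)) = C2305bH52.Dow.tm 6 K0 →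
      ∃ z : C2305b.Pl, ∀ x ∈ convexHull ℝ (range p),
        (2 : ℝ) • z - x ∈ convexHull ℝ (range p)) : C2305b.Core K0 := by
  obtain ⟨h1, h2, h3⟩ := C2305bH52.C1.data_of_nat hsym hK hconv hint h hn
  exact core_gapSym hsym hK hconv hint h1 h2 h3

end C2305bG
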