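import Pool.Agent.W_c2305b_h35.Third2
import Pool.Agent.W_c2305b_h86.Defs

/-!
# MP_c2305b_co, class Gap + Sym: labelings of perfect cells and nearly vertical edges
-/

namespace C2305bG

open Set Module MeasureTheory
open C2305b.TL (cr)
open C2305b.Rig (Conv6 ar6)
open W82 (V Perfect GoodV Vb Fv Tv S kv ux uy ux_sub uy_sub ux_add uy_add cr_frame)

variable {ι : Type*} {D : Set V} {P : ι → Set V}

/-- The corners of a perfect cell, counterclockwise. -/
theorem label [Finite ι] (h : W82.Tiling D P)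
    (hi : (interior (convexHull ℝ (Vb D P))).Nonempty) {loss : ι → ℝ} {η : ℝ}
    {i : {i : ι // (interior (convexHull ℝ (S P i))).Nonempty}}
    (hp : Perfect D P loss η i) {v : V} (hv : v ∈ S P (i : ι)) :
    ∃ q : Fin 6 → V, q 0 = v ∧ (∀ k, (h.toTL hi).E i (q k) (q (k + 1))) ∧ Conv6 q ∧
      (∀ k, q k ∈ S P (i : ι)) ∧ ar6 q = (volume (convexHull ℝ (S P (i : ι)))).toReal ∧
      Function.Injective q ∧ ∀ x ∈ S P (i : ι), ∃ k, x = q k := by
  set T := h.toTL hi with hT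
  set Sf := (h.S_finite (i : ι)).toFinset with hSf
  have hco : (Sf : Set V) = S P i := Set.Finite.coe_toFinset _
  have hcor : C2305bH68.Ord.Corners Sf := h.corners i
  have hcard : Sf.card = 6 := by
    rw [hSf, ← Set.ncard_eq_toFinset_card _ (h.S_finite (i : ι))]
    exact hp.card
  have h3 : 3 ≤ Sf.card := by rw [hcard]; norm_num
  have hmem : ∀ x, x ∈ T.W → x ∈ T.P i → x ∈ Sf := by
    intro x hx hxi
    rw [hSf, Set.Finite.mem_toFinset]
    exact hp.only x (h.hull_sub i hxi) (h.mem_M.mp hx)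
  have hnx : ∀ x y, T.E i x y → C2305bH68.Ord.Nx Sf x y := by
    intro x y hxy
    refine ⟨hmem x hxy.1.1 hxy.1.2, hmem y hxy.2.1.1 hxy.2.1.2, hxy.2.2.1, ?_⟩
    intro z hz
    rw [hco] at hz
    exact hxy.2.2.2.1 z hz
  have hvS : v ∈ Sf := by rw [hSf, Set.Finite.mem_toFinset]; exact hv
  obtain ⟨q, q0, qinj, qran, qle, qlt, qvol⟩ := C2305bH68.Ord.exists_cyclic_six hcor hcard hvS
  have hqS : ∀ k, q k ∈ Sf := by
    intro k
    have : q k ∈ range q := mem_range_self k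
    rw [qran] at this
    exact this
  have hqS' : ∀ k, q k ∈ S P (i : ι) := by
    intro k
    have := hqS k
    rw [hSf, Set.Finite.mem_toFinset] at this
    exact this
  have hqn : ∀ k, C2305bH68.Ord.Nx Sf (q k) (q (k + 1)) := by
    intro k
    refine ⟨hqS k, hqS (k + 1), ?_, qle k⟩
    intro h0
    have h1 := qinj h0
    have h2 : ∀ k : ZMod 6, k + 1 ≠ k := by decide
    exact h2 k h1
  have hE : ∀ k, T.E i (q k) (q (k + 1)) := by
    intro k
    obtain ⟨w, hw⟩ := T.exists_next i (v := q k) (h.mem_M.mpr ⟨i, hqS' k⟩)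
      (subset_convexHull ℝ _ (hqS' k))
    have := C2305bH68.Ord.nx_unique hcor h3 (hqn k) (hnx _ _ hw)
    rw [← this]
    exact hw
  refine ⟨q, q0, hE, ?_, hqS', ?_, qinj, ?_⟩
  · apply W82.conv6_of_strict
    intro k l hl hl'
    exact qlt k (q l) (hqS l) (fun h0 => hl (qinj h0)) (fun h0 => hl' (qinj h0))
  · rw [← hco, qvol]
    rfl
  · intro x hx
    have : x ∈ range q := by
      rw [qran, hco]
      exact hx
    obtain ⟨k, hk⟩ := this
    exact ⟨k, hk.symm⟩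

/-- Labelings are determined by the first corner. -/
theorem label_unique {J : Type*} (T : C2305b.TL.Tiling J) {i : J} {q q' : Fin 6 → V}
    (hq : ∀ k, T.E i (q k) (q (k + 1))) (hq' : ∀ k, T.E i (q' k) (q' (k + 1)))
    (h0 : q' 0 = q 0) : q' = q := by
  have step : ∀ k : Fin 6, q' k = q k → q' (k + 1) = q (k + 1) := by
    intro k hk
    have h1 := hq' k
    rw [hk] at h1
    exact T.next_unique i (hq k) h1
  have h1 : q' 1 = q 1 := step 0 h0
  have h2 : q' 2 = q 2 := step 1 h1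
  have h3 : q' 3 = q 3 := step 2 h2
  have h4 : q' 4 = q 4 := step 3 h3
  have h5 : q' 5 = q 5 := step 4 h4
  funext k
  fin_cases k
  · exact h0
  · exact h1
  · exact h2
  · exact h3
  · exact h4
  · exact h5

/-- A shifted labeling. -/
theorem label_shift {J : Type*} (T : C2305b.TL.Tiling J) {i : J} {q : Fin 6 → V}
    (hq : ∀ k, T.E i (q k) (q (k + 1))) (r : Fin 6) :
    ∀ k, T.E i ((fun k => q (k + r)) k) ((fun k => q (k + r)) (k + 1)) := by
  intro k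
  have h1 := hq (k + r)
  have e : k + r + 1 = k + 1 + r := by
    have : ∀ k r : Fin 6, k + r + 1 = k + 1 + r := by decide
    exact this k r
  simp only
  rwa [e] at h1

/-- Local facts about a tiling with frames. -/
structure Loc [Finite ι] (h : W82.Tiling D P)
    (hi : (interior (convexHull ℝ (Vb D P))).Nonempty) (loss : ι → ℝ) (η ν : ℝ) (c s : ι → ℝ)
    (τ ρ μ ε1 : ℝ) : Prop where
  tau : 0 < τ
  rho : 0 < ρ
  nu : 0 ≤ ν
  nu1 : ν ≤ 1
  fr : ∀ i, c i ^ 2 + ν * s i ^ 2 = 1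
  cost : ∀ (i : {i : ι // (interior (convexHull ℝ (S P i))).Nonempty}) (u v w : V),
    Perfect D P loss η i → (h.toTL hi).E i u v → (h.toTL hi).E i v w →
    2 * τ ≤ cr (w - v) (u - v)
  bx : ∀ i, ∀ p ∈ P i, ∀ q ∈ P i, |ux ν (c i) (s i) (p - q)| ≤ ρ
  by' : ∀ i, ∀ p ∈ P i, ∀ q ∈ P i, |uy (c i) (s i) (p - q)| ≤ ρ
  mis : ∀ v, GoodV D P loss η v → ∀ l m, v ∈ P l → v ∈ P m → |c l * s m - s l * c m| ≤ μ
  sym : ∀ (i : {i : ι // (interior (convexHull ℝ (S P i))).Nonempty}) (q : Fin 6 → V),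
    Perfect D P loss η i → (∀ k, (h.toTL hi).E i (q k) (q (k + 1))) →
    ∀ k, |ux ν (c i) (s i) ((q (k + 1) - q k) + (q (k + 4) - q (k + 3)))| ≤ ε1 ∧
      |uy (c i) (s i) ((q (k + 1) - q k) + (q (k + 4) - q (k + 3)))| ≤ ε1

section num

/-- Crosses of nearly vertical vectors. -/
theorem cross_small {ρ ω e0 e1 f0 f1 : ℝ} (hω : 0 ≤ ω) (h0 : |e0| ≤ ω) (h1 : |e1| ≤ ρ)
    (h2 : |f0| ≤ ω) (h3 : |f1| ≤ ρ) : |e0 * f1 - e1 * f0| ≤ 2 * (ω * ρ) := by
  refine (abs_sub _ _).trans ?_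
  rw [abs_mul, abs_mul]
  have a1 := mul_le_mul h0 h3 (abs_nonneg _) hω
  have hρ : 0 ≤ ρ := (abs_nonneg _).trans h1
  have a2 := mul_le_mul h1 h2 (abs_nonneg _) hρ
  linarith [mul_comm ω ρ]

end num

variable [Finite ι] {h : W82.Tiling D P} {hi : (interior (convexHull ℝ (Vb D P))).Nonempty}
  {loss : ι → ℝ} {η ν τ ρ μ ε1 ω : ℝ} {c s : ι → ℝ}

theorem Loc.memP (_hL : Loc h hi loss η ν c s τ ρ μ ε1)
    {i : {i : ι // (interior (convexHull ℝ (S P i))).Nonempty}} {v w : V}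
    (hE : (h.toTL hi).E i v w) : v ∈ P i ∧ w ∈ P i :=
  ⟨h.hull_sub i hE.1.2, h.hull_sub i hE.2.1.2⟩

/-- The crosses of consecutive edges of a labeled perfect cell. -/
theorem Loc.cross (hL : Loc h hi loss η ν c s τ ρ μ ε1)
    {i : {i : ι // (interior (convexHull ℝ (S P i))).Nonempty}} (hp : Perfect D P loss η i)
    {q : Fin 6 → V} (hq : ∀ k, (h.toTL hi).E i (q k) (q (k + 1))) (k : Fin 6) :
    2 * τ ≤ cr (q (k + 1) - q k) (q (k + 2) - q (k + 1)) := by
  have h1 := hq (k + 1)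
  have e : k + 1 + 1 = k + 2 := by
    have : ∀ k : Fin 6, k + 1 + 1 = k + 2 := by decide
    exact this k
  rw [e] at h1
  have h2 := hL.cost i _ _ _ hp (hq k) h1
  have e2 : cr (q (k + 2) - q (k + 1)) (q k - q (k + 1)) =
      cr (q (k + 1) - q k) (q (k + 2) - q (k + 1)) := by
    simp [cr]; ring
  rwa [e2] at h2

/-- The crosses of edges at distance two. -/
theorem Loc.cross2 (hL : Loc h hi loss η ν c s τ ρ μ ε1)
    {i : {i : ι // (interior (convexHull ℝ (S P i))).Nonempty}} (hp : Perfect D P loss η i)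
    {q : Fin 6 → V} (hq : ∀ k, (h.toTL hi).E i (q k) (q (k + 1))) (k : Fin 6) :
    2 * τ - 2 * (ε1 * ρ) ≤ cr (q (k + 1) - q k) (q (k + 3) - q (k + 2)) := by
  -- the edge `k + 2` is nearly opposite to the edge `k + 5`
  have h1 := hL.cross hp hq (k + 5)
  have e1 : k + 5 + 1 = k := by
    have : ∀ k : Fin 6, k + 5 + 1 = k := by decide
    exact this k
  have e2 : k + 5 + 2 = k + 1 := by
    have : ∀ k : Fin 6, k + 5 + 2 = k + 1 := by decide
    exact this k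
  rw [e1, e2] at h1
  obtain ⟨s1, s2⟩ := hL.sym i q hp hq (k + 2)
  have e3 : k + 2 + 1 = k + 3 := by
    have : ∀ k : Fin 6, k + 2 + 1 = k + 3 := by decide
    exact this k
  have e4 : k + 2 + 4 = k := by
    have : ∀ k : Fin 6, k + 2 + 4 = k := by decide
    exact this k
  have e5 : k + 2 + 3 = k + 5 := by
    have : ∀ k : Fin 6, k + 2 + 3 = k + 5 := by decide
    exact this k
  rw [e3, e4, e5] at s1 s2
  set X := (q (k + 3) - q (k + 2)) + (q k - q (k + 5)) with hX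
  have hm := hL.memP (hq k)
  have b1 := hL.bx i _ hm.2 _ hm.1
  have b2 := hL.by' i _ hm.2 _ hm.1
  have hρ : 0 ≤ ρ := (abs_nonneg _).trans b1
  have hε : 0 ≤ ε1 := (abs_nonneg _).trans s1
  have key : cr (q (k + 1) - q k) (q (k + 3) - q (k + 2)) =
      cr (q k - q (k + 5)) (q (k + 1) - q k) + cr (q (k + 1) - q k) X := by
    rw [hX]; simp [cr]; ring
  have h2 : |cr (q (k + 1) - q k) X| ≤ 2 * (ε1 * ρ) := by
    rw [cr_frame (hL.fr i)]
    refine (abs_sub _ _).trans ?_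
    rw [abs_mul, abs_mul]
    have a1 := mul_le_mul b1 s2 (abs_nonneg _) hρ
    have a2 := mul_le_mul b2 s1 (abs_nonneg _) hρ
    linarith [mul_comm ρ ε1]
  have h3 := (abs_le.1 h2).1
  rw [key]
  linarith

/-- A nearly vertical edge is long. -/
theorem Loc.long (hL : Loc h hi loss η ν c s τ ρ μ ε1)
    {i : {i : ι // (interior (convexHull ℝ (S P i))).Nonempty}} (hp : Perfect D P loss η i)
    {q : Fin 6 → V} (hq : ∀ k, (h.toTL hi).E i (q k) (q (k + 1))) (hω : ω * ρ ≤ τ) {k : Fin 6}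
    (hv : |ux ν (c i) (s i) (q (k + 1) - q k)| ≤ ω) :
    τ / ρ ≤ |uy (c i) (s i) (q (k + 1) - q k)| := by
  have h1 := hL.cross hp hq k
  rw [cr_frame (hL.fr i)] at h1
  have hm := hL.memP (hq (k + 1))
  have e : k + 1 + 1 = k + 2 := by
    have : ∀ k : Fin 6, k + 1 + 1 = k + 2 := by decide
    exact this k
  rw [e] at hm
  have b1 := hL.bx i _ hm.2 _ hm.1
  have b2 := hL.by' i _ hm.2 _ hm.1
  have hω0 : 0 ≤ ω := (abs_nonneg _).trans hv
  rw [div_le_iff₀ hL.rho]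
  have a1 : ux ν (c i) (s i) (q (k + 1) - q k) * uy (c i) (s i) (q (k + 2) - q (k + 1)) ≤
      ω * ρ := by
    refine (le_abs_self _).trans ?_
    rw [abs_mul]
    exact mul_le_mul hv b2 (abs_nonneg _) hω0
  have a2 : -(uy (c i) (s i) (q (k + 1) - q k) * ux ν (c i) (s i) (q (k + 2) - q (k + 1))) ≤
      |uy (c i) (s i) (q (k + 1) - q k)| * ρ := by
    refine (neg_le_abs _).trans ?_
    rw [abs_mul]
    exact mul_le_mul_of_nonneg_left b1 (abs_nonneg _)
  linarith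

/-- **The upward nearly vertical edge is unique.** -/
theorem Loc.up_unique (hL : Loc h hi loss η ν c s τ ρ μ ε1)
    {i : {i : ι // (interior (convexHull ℝ (S P i))).Nonempty}} (hp : Perfect D P loss η i)
    {q : Fin 6 → V} (hq : ∀ k, (h.toTL hi).E i (q k) (q (k + 1)))
    (hω : 4 * (ω * ρ) ≤ τ) (hε : 4 * (ε1 * ρ) ≤ τ) {k : Fin 6}
    (h0 : |ux ν (c i) (s i) (q 1 - q 0)| ≤ ω) (h0' : 0 < uy (c i) (s i) (q 1 - q 0))
    (hk : |ux ν (c i) (s i) (q (k + 1) - q k)| ≤ ω)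
    (hk' : 0 < uy (c i) (s i) (q (k + 1) - q k)) : k = 0 := by
  have hτ := hL.tau
  have hω0 : 0 ≤ ω := (abs_nonneg _).trans h0
  have hm : ∀ j, |uy (c i) (s i) (q (j + 1) - q j)| ≤ ρ := fun j => by
    have := hL.memP (hq j)
    exact hL.by' i _ this.2 _ this.1
  have hb0 : |uy (c i) (s i) (q 1 - q 0)| ≤ ρ := hm 0
  have small : ∀ f : V, |ux ν (c i) (s i) f| ≤ ω → |uy (c i) (s i) f| ≤ ρ →
      |cr (q 1 - q 0) f| ≤ 2 * (ω * ρ) := by
    intro f hf1 hf2
    rw [cr_frame (hL.fr i)]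
    exact cross_small hω0 h0 hb0 hf1 hf2
  have hkc := small _ hk (hm k)
  have hanti : ∀ f : V, cr f (q 1 - q 0) = - cr (q 1 - q 0) f := by
    intro f; simp [cr]; ring
  by_contra hne
  have hcases : ∀ k : Fin 6, k ≠ 0 → k = 1 ∨ k = 2 ∨ k = 3 ∨ k = 4 ∨ k = 5 := by decide
  rcases hcases k hne with rfl | rfl | rfl | rfl | rfl
  · have h1 := hL.cross hp hq 0
    have h2 := (abs_le.1 hkc).2
    have e : cr (q (0 + 1) - q 0) (q (0 + 2) - q (0 + 1)) = cr (q 1 - q 0) (q (1 + 1) - q 1) := rfl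
    rw [e] at h1
    linarith
  · have h1 := hL.cross2 hp hq 0
    have h2 := (abs_le.1 hkc).2
    have e : cr (q (0 + 1) - q 0) (q (0 + 3) - q (0 + 2)) = cr (q 1 - q 0) (q (2 + 1) - q 2) := rfl
    rw [e] at h1
    linarith
  · -- the opposite edge
    obtain ⟨-, s2⟩ := hL.sym i q hp hq 0
    have e : (q (0 + 1) - q 0) + (q (0 + 4) - q (0 + 3)) = (q 1 - q 0) + (q (3 + 1) - q 3) := rfl
    rw [e, uy_add] at s2
    have l0 := hL.long hp hq (ω := ω) (k := 0) (by linarith [mul_nonneg hω0 hL.rho.le]) h0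
    have l0' : τ / ρ ≤ |uy (c i) (s i) (q 1 - q 0)| := l0
    rw [abs_of_pos h0'] at l0'
    have h4 := (abs_le.1 s2).2
    have h5 : ε1 < τ / ρ := by
      rw [lt_div_iff₀ hL.rho]
      have : 0 ≤ ε1 * ρ := mul_nonneg ((abs_nonneg _).trans s2) hL.rho.le
      linarith
    linarith
  · have h1 := hL.cross2 hp hq 4
    have e : cr (q (4 + 1) - q 4) (q (4 + 3) - q (4 + 2)) = cr (q (4 + 1) - q 4) (q 1 - q 0) := rfl
    rw [e, hanti] at h1
    have h2 := (abs_le.1 hkc).1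
    linarith
  · have h1 := hL.cross hp hq 5
    have e : cr (q (5 + 1) - q 5) (q (5 + 2) - q (5 + 1)) = cr (q (5 + 1) - q 5) (q 1 - q 0) := rfl
    rw [e, hanti] at h1
    have h2 := (abs_le.1 hkc).1
    linarith

/-- The chord below a nearly vertical edge. -/
theorem Loc.chord (hL : Loc h hi loss η ν c s τ ρ μ ε1)
    {i : {i : ι // (interior (convexHull ℝ (S P i))).Nonempty}} (hp : Perfect D P loss η i)
    {q : Fin 6 → V} (hq : ∀ k, (h.toTL hi).E i (q k) (q (k + 1)))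
    (hω : 4 * (ω * ρ) ≤ τ) (hε : 4 * (ε1 * ρ) ≤ τ)
    (h0 : |ux ν (c i) (s i) (q 1 - q 0)| ≤ ω) (h0' : 0 < uy (c i) (s i) (q 1 - q 0)) :
    τ / ρ ≤ ux ν (c i) (s i) (q 0 - q 4) := by
  have hτ := hL.tau
  have hω0 : 0 ≤ ω := (abs_nonneg _).trans h0
  have h1 := hL.cross hp hq 5
  have h2 := hL.cross2 hp hq 4
  have e1 : cr (q (5 + 1) - q 5) (q (5 + 2) - q (5 + 1)) = cr (q 0 - q 5) (q 1 - q 0) := rfl
  have e2 : cr (q (4 + 1) - q 4) (q (4 + 3) - q (4 + 2)) = cr (q 5 - q 4) (q 1 - q 0) := rfl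
  rw [e1] at h1
  rw [e2] at h2
  have e3 : cr (q 0 - q 4) (q 1 - q 0) = cr (q 0 - q 5) (q 1 - q 0) + cr (q 5 - q 4) (q 1 - q 0) := by
    simp [cr]; ring
  have h3 : 4 * τ - 2 * (ε1 * ρ) ≤ cr (q 0 - q 4) (q 1 - q 0) := by rw [e3]; linarith
  rw [cr_frame (hL.fr i)] at h3
  have m0 := hL.memP (hq 0)
  have m4 := hL.memP (hq 4)
  have b1 := hL.by' i _ m0.1 _ m4.1
  have b2 := hL.by' i _ m0.2 _ m0.1
  have b2' : uy (c i) (s i) (q 1 - q 0) ≤ ρ := (le_abs_self _).trans b2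
  have a1 : -(uy (c i) (s i) (q 0 - q 4) * ux ν (c i) (s i) (q 1 - q 0)) ≤ ω * ρ := by
    refine (neg_le_abs _).trans ?_
    rw [abs_mul, mul_comm ω ρ]
    exact mul_le_mul b1 h0 (abs_nonneg _) hL.rho.le
  have h4 : τ ≤ ux ν (c i) (s i) (q 0 - q 4) * uy (c i) (s i) (q 1 - q 0) := by
    have : 0 ≤ ω * ρ := mul_nonneg hω0 hL.rho.le
    linarith
  have h5 : 0 ≤ ux ν (c i) (s i) (q 0 - q 4) := by
    by_contra hcon
    push Not at hcon
    have := mul_neg_of_neg_of_pos hcon h0'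
    linarith
  rw [div_le_iff₀ hL.rho]
  exact h4.trans (mul_le_mul_of_nonneg_left b2' h5)

end C2305bG
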